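import Mathlib
import Pool.Agent.K4H10.QZ.T1
import Pool.Agent.K4H10.QZ.T2
import Pool.Agent.K4H10.QZ.T3

/-!
# The growth of the multiplicity spaces of an idempotent
-/

set_option autoImplicit false
set_option linter.unusedSectionVars false

namespace Pool.Agent.K4H35.QB

open Matrix Module Filter Topology Pool.Agent.K4H54.PL Pool.Agent.K4H10.QZ

noncomputable section

variable {k : Type} [Field k] {ι : Type} [Fintype ι] [DecidableEq ι]
  {R : ∀ a c : ℕ, Matrix (Fin c → ι) (Fin a → ι) k → Prop} {q qi : Matrix ι ι k} {σ : ι → k}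

/-- the rank of the complementary idempotent -/
theorem rank_compl {J : Type} [Fintype J] [DecidableEq J] (e : Matrix J J k) (he : e * e = e) :
    e.rank + (1 - e).rank = Fintype.card J := by
  have h1 : LinearMap.range ((1 - e).mulVecLin) = LinearMap.ker e.mulVecLin := by
    ext x
    constructor
    · rintro ⟨y, rfl⟩
      change e *ᵥ ((1 - e) *ᵥ y) = 0
      rw [Matrix.mulVec_mulVec, Matrix.mul_sub, Matrix.mul_one, he, sub_self, Matrix.zero_mulVec]
    · intro hx
      refine ⟨x, ?_⟩
      change (1 - e) *ᵥ x = x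
      have hx' : e *ᵥ x = 0 := hx
      rw [Matrix.sub_mulVec, Matrix.one_mulVec, hx', sub_zero]
  have h2 := LinearMap.finrank_range_add_finrank_ker e.mulVecLin
  rw [← h1, Module.finrank_fintype_fun_eq_card] at h2
  exact h2

theorem compl_idem {J : Type} [Fintype J] [DecidableEq J] {e : Matrix J J k} (he : e * e = e) :
    (1 - e) * (1 - e) = 1 - e := by
  rw [Matrix.mul_sub, Matrix.mul_one, Matrix.sub_mul, Matrix.one_mul, he, sub_self, sub_zero]

/-- the multiplicity space as a submodule of the correspondences, and its complement -/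
theorem finrank_LE_add (h : Rig R q qi σ) {n : ℕ} {e : Matrix (Fin n → ι) (Fin n → ι) k}
    (he : R n n e) (hee : e * e = e) (m : ℕ) :
    finrank k (LE R h.clo h.zero e m) + finrank k (LE R h.clo h.zero (1 - e) m) =
      finrank k (BB R h.clo h.zero (m + n)) := by
  rw [← finrank_VV h m n]
  have h1 : R n n (1 - e) := by
    have h2 := h.clo.add (h.idn n) (h.clo.smul (-1) he)
    rwa [neg_one_smul, ← sub_eq_add_neg] at h2
  have h2 : LE R h.clo h.zero e m ⊔ LE R h.clo h.zero (1 - e) m = VV R h.clo h.zero m n := by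
    refine le_antisymm (sup_le (fun x hx => hx.1) fun x hx => hx.1) ?_
    intro x hx
    have h3 : x = e * x + (1 - e) * x := by
      rw [← Matrix.add_mul, add_sub_cancel, Matrix.one_mul]
    rw [h3]
    refine Submodule.add_mem_sup ⟨h.clo.comp hx he, ?_⟩ ⟨h.clo.comp hx h1, ?_⟩
    · rw [← Matrix.mul_assoc, hee]
    · rw [← Matrix.mul_assoc, compl_idem hee]
  have h3 : LE R h.clo h.zero e m ⊓ LE R h.clo h.zero (1 - e) m = ⊥ := by
    rw [Submodule.eq_bot_iff]
    rintro x ⟨hx, hx'⟩
    have h4 : e * x = x := hx.2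
    have h5 : (1 - e) * x = x := hx'.2
    rw [Matrix.sub_mul, Matrix.one_mul, h4, sub_self] at h5
    exact h5.symm
  have h4 := Submodule.finrank_sup_add_finrank_inf_eq (LE R h.clo h.zero e m)
    (LE R h.clo h.zero (1 - e) m)
  rw [h2, h3, finrank_bot, add_zero] at h4
  exact h4.symm

theorem one_sub_mem (h : Rig R q qi σ) {n : ℕ} {e : Matrix (Fin n → ι) (Fin n → ι) k}
    (he : R n n e) : R n n (1 - e) := by
  have h2 := h.clo.add (h.idn n) (h.clo.smul (-1) he)
  rwa [neg_one_smul, ← sub_eq_add_neg] at h2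

theorem count_LE (h : Rig R q qi σ) {n : ℕ} (hn : 0 < n) {e : Matrix (Fin n → ι) (Fin n → ι) k}
    (he : R n n e) (hee : e * e = e) (M l : ℕ) (hl : n * l ≤ M) (m : ℕ) (hm : M = m + n) (x : ℝ)
    (hx : 1 ≤ x) :
    (finrank k (BB R h.clo h.zero M) : ℝ) *
      x ^ ((l : ℝ) * finrank k (LE R h.clo h.zero e m) / finrank k (BB R h.clo h.zero M)) ≤
      (x * e.rank + ((Fintype.card ι : ℝ) ^ n - e.rank)) ^ l *
        (Fintype.card ι : ℝ) ^ (M - n * l) := by
  refine count_idem hn e hee M l hl (BB R h.clo h.zero M) ?_ _ ?_ x hx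
  · intro j hj z hz
    have h1 := h.clo.comp hz (opAt_mem h he M (n * j) hj)
    exact h1
  · intro j hj
    exact finrank_LE_le h e m M hm (n * j) hj

/-- **The growth of the multiplicity space of an idempotent.** -/
theorem ratio_LE (h : Rig R q qi σ) (hD : 0 < Fintype.card ι)
    (c : ℕ) (hlow : ∀ M, Fintype.card ι ^ M ≤ finrank k (BB R h.clo h.zero M) * c * (M + 1) ^ c)
    (hpos : ∀ M, 0 < finrank k (BB R h.clo h.zero M)) {n : ℕ} (hn : 0 < n)
    {e : Matrix (Fin n → ι) (Fin n → ι) k} (he : R n n e) (hee : e * e = e) :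
    Tendsto (fun m => (finrank k (LE R h.clo h.zero e m) : ℝ) /
      finrank k (BB R h.clo h.zero (m + n))) atTop (𝓝 (e.rank / (Fintype.card ι : ℝ) ^ n)) := by
  classical
  let f : ℕ → ℕ := fun M => if n ≤ M then finrank k (LE R h.clo h.zero e (M - n)) else
    finrank k (BB R h.clo h.zero M)
  let f' : ℕ → ℕ := fun M => if n ≤ M then finrank k (LE R h.clo h.zero (1 - e) (M - n)) else 0
  have hcard : Fintype.card (Fin n → ι) = Fintype.card ι ^ n := by
    rw [Fintype.card_fun, Fintype.card_fin]
  have hrk := rank_compl e hee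
  rw [hcard] at hrk
  have hrk' : ((1 - e).rank : ℝ) = (Fintype.card ι : ℝ) ^ n - e.rank := by
    have h1 : ((e.rank + (1 - e).rank : ℕ) : ℝ) = ((Fintype.card ι ^ n : ℕ) : ℝ) := by rw [hrk]
    push_cast at h1
    linarith
  have hle : ∀ M, (finrank k (BB R h.clo h.zero M) : ℝ) ≤ (Fintype.card ι : ℝ) ^ M := by
    intro M
    have h1 := Submodule.finrank_le (BB R h.clo h.zero M)
    have h2 : finrank k (T k ι M) = Fintype.card ι ^ M := by
      rw [Module.finrank_fintype_fun_eq_card, Fintype.card_fun, Fintype.card_fin]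
    rw [h2] at h1
    exact_mod_cast h1
  have key := limit_idem (Fintype.card ι) n e.rank hD hn (by omega)
    (fun M => finrank k (BB R h.clo h.zero M)) f f' c hlow hpos ?_ ?_ ?_
  · -- shift
    have h1 := key.comp (tendsto_add_atTop_nat n)
    refine h1.congr fun m => ?_
    simp only [Function.comp_apply, f]
    rw [if_pos (Nat.le_add_left n m), Nat.add_sub_cancel]
  · intro M
    simp only [f, f']
    split_ifs with hM
    · have h1 := finrank_LE_add h he hee (M - n)
      rw [Nat.sub_add_cancel hM] at h1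
      exact h1
    · rfl
  · intro M l hl x hx
    simp only [f]
    split_ifs with hM
    · exact count_LE h hn he hee M l hl (M - n) (by omega) x hx
    · have hl0 : l = 0 := by
        by_contra hl0
        have : n * 1 ≤ n * l := Nat.mul_le_mul_left n (Nat.one_le_iff_ne_zero.2 hl0)
        omega
      subst hl0
      simpa using hle M
  · intro M l hl x hx
    simp only [f']
    split_ifs with hM
    · have h1 := count_LE h hn (one_sub_mem h he) (compl_idem hee) M l hl (M - n) (by omega) x hx
      rw [hrk'] at h1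
      convert h1 using 3
      ring
    · have hl0 : l = 0 := by
        by_contra hl0
        have : n * 1 ≤ n * l := Nat.mul_le_mul_left n (Nat.one_le_iff_ne_zero.2 hl0)
        omega
      subst hl0
      simpa using hle M

end

end Pool.Agent.K4H35.QB
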