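import Mathlib
import Pool.Agent.K4H35.QH.B

/-!
# Cyclic modules over a closed family
-/

set_option autoImplicit false
set_option linter.unusedSectionVars false

namespace Pool.Agent.K4H35.QB

open Matrix Module Filter Topology Pool.Agent.K4H54.PL Pool.Agent.K4H10.QZ

noncomputable section

section lin

variable {k : Type} [Field k]

theorem finrank_le_of {V W : Type} [AddCommGroup V] [Module k V] [AddCommGroup W] [Module k W]
    (p : Submodule k V) (q : Submodule k W) [FiniteDimensional k q] (f : V →ₗ[k] W)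
    (hf : ∀ x ∈ p, f x ∈ q) (hinj : ∀ x ∈ p, f x = 0 → x = 0) : finrank k p ≤ finrank k q := by
  refine LinearMap.finrank_le_finrank_of_injective (f := f.restrict hf) ?_
  rw [← LinearMap.ker_eq_bot, LinearMap.ker_eq_bot']
  intro x hx
  have h1 : f x.1 = 0 := congrArg Subtype.val hx
  exact Subtype.ext (hinj x.1 x.2 h1)

/-- left multiplication -/
def mulL {α β γ : Type} [Fintype β] (A : Matrix γ β k) : Matrix β α k →ₗ[k] Matrix γ α k where
  toFun X := A * X
  map_add' := Matrix.mul_add A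
  map_smul' r X := by rw [Matrix.mul_smul, RingHom.id_apply]

/-- the value at a vector -/
def mvL {α β : Type} [Fintype α] (g : α → k) : Matrix β α k →ₗ[k] (β → k) where
  toFun X := X *ᵥ g
  map_add' X X' := Matrix.add_mulVec X X' g
  map_smul' r X := by rw [Matrix.smul_mulVec, RingHom.id_apply]

theorem one_le_rank {J : Type} [Fintype J] [DecidableEq J] {e : Matrix J J k} {g : J → k}
    (hg : g ≠ 0) (h : e *ᵥ g = g) : 1 ≤ e.rank := by
  change 1 ≤ finrank k (LinearMap.range e.mulVecLin)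
  rw [Nat.one_le_iff_ne_zero]
  intro h0
  have h1 : LinearMap.range e.mulVecLin = ⊥ := Submodule.finrank_eq_zero.1 h0
  have h2 : g ∈ LinearMap.range e.mulVecLin := ⟨g, h⟩
  rw [h1, Submodule.mem_bot] at h2
  exact hg h2

end lin

variable {k : Type} [Field k] {ι : Type} [Fintype ι] [DecidableEq ι]
  {R : ∀ a c : ℕ, Matrix (Fin c → ι) (Fin a → ι) k → Prop} {q qi : Matrix ι ι k} {σ : ι → k}

/-- the idempotent of a class and a form of degree one -/
def e0 (x φ : T k ι 1) : Matrix (Fin 1 → ι) (Fin 1 → ι) k := (φ ⬝ᵥ x)⁻¹ • (cl x * ro φ)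

theorem ro_cl (x φ : T k ι 1) : ro φ * cl x = (φ ⬝ᵥ x) • (1 : Matrix (Fin 0 → ι) (Fin 0 → ι) k) := by
  ext u w
  rw [ro_mul_cl, Matrix.smul_apply, Subsingleton.elim u w, Matrix.one_apply_eq, smul_eq_mul,
    mul_one]

theorem e0_cl {x φ : T k ι 1} (h : φ ⬝ᵥ x ≠ 0) : e0 x φ * cl x = cl x := by
  unfold e0
  rw [Matrix.smul_mul, Matrix.mul_assoc, ro_cl, Matrix.mul_smul, Matrix.mul_one, smul_smul,
    inv_mul_cancel₀ h, one_smul]

theorem e0_idem {x φ : T k ι 1} (h : φ ⬝ᵥ x ≠ 0) : e0 x φ * e0 x φ = e0 x φ := by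
  have h1 : e0 x φ * e0 x φ = (φ ⬝ᵥ x)⁻¹ • ((e0 x φ * cl x) * ro φ) := by
    change e0 x φ * ((φ ⬝ᵥ x)⁻¹ • (cl x * ro φ)) = _
    rw [Matrix.mul_smul, ← Matrix.mul_assoc]
  rw [h1, e0_cl h]
  rfl

theorem e0_rank {x φ : T k ι 1} (h : φ ⬝ᵥ x ≠ 0) : (e0 x φ).rank = 1 := by
  refine le_antisymm ?_ ?_
  · have h1 : e0 x φ = ((φ ⬝ᵥ x)⁻¹ • cl x) * ro φ := by
      rw [Matrix.smul_mul]
      rfl
    rw [h1]
    refine (Matrix.rank_mul_le_left _ _).trans ((Matrix.rank_le_card_width _).trans ?_)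
    rw [Fintype.card_fun, Fintype.card_fin, pow_zero]
  · refine one_le_rank (g := x) ?_ ?_
    · rintro rfl
      exact h (dotProduct_zero φ)
    · have h1 := e0_cl h
      funext V
      exact congrFun (congrFun h1 V) Fin.elim0

theorem e0_mem (h : Rig R q qi σ) {x φ : T k ι 1} (hx : R 0 1 (cl x)) (hφ : R 1 0 (ro φ)) :
    R 1 1 (e0 x φ) := h.clo.smul _ (h.clo.comp hφ hx)

theorem finrank_LE_e0 (h : Rig R q qi σ) {x φ : T k ι 1} (hx : R 0 1 (cl x))
    (hφ : R 1 0 (ro φ)) (hne : φ ⬝ᵥ x ≠ 0) (m : ℕ) :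
    finrank k (LE R h.clo h.zero (e0 x φ) m) = finrank k (BB R h.clo h.zero m) := by
  have h0 : finrank k (BB R h.clo h.zero m) = finrank k (VV R h.clo h.zero m 0) := by
    have h1 := finrank_VV h m 0
    rw [Nat.add_zero] at h1
    exact h1.symm
  rw [h0]
  refine le_antisymm ?_ ?_
  · refine finrank_le_of _ _ (mulL (ro φ)) (fun y hy => h.clo.comp hy.1 hφ) fun y hy h1 => ?_
    have h2 : ro φ * y = 0 := h1
    have h3 : e0 x φ * y = y := hy.2
    rw [← h3, e0, Matrix.smul_mul, Matrix.mul_assoc, h2, Matrix.mul_zero, smul_zero]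
  · refine finrank_le_of _ _ (mulL (cl x)) (fun w hw => ⟨h.clo.comp hw hx, ?_⟩) fun w _ h1 => ?_
    · change e0 x φ * (cl x * w) = cl x * w
      rw [← Matrix.mul_assoc, e0_cl hne]
    · have h2 : cl x * w = 0 := h1
      have h3 : (φ ⬝ᵥ x) • w = 0 := by
        rw [← Matrix.one_mul w, ← Matrix.smul_mul, ← ro_cl, Matrix.mul_assoc, h2, Matrix.mul_zero]
      exact (smul_eq_zero.1 h3).resolve_left hne

/-- the ratio of consecutive dimensions -/
theorem ratio_one (h : Rig R q qi σ) (hD : 0 < Fintype.card ι)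
    (c : ℕ) (hlow : ∀ M, Fintype.card ι ^ M ≤ finrank k (BB R h.clo h.zero M) * c * (M + 1) ^ c)
    (hpos : ∀ M, 0 < finrank k (BB R h.clo h.zero M)) {x φ : T k ι 1} (hx : R 0 1 (cl x))
    (hφ : R 1 0 (ro φ)) (hne : φ ⬝ᵥ x ≠ 0) :
    Tendsto (fun m => (finrank k (BB R h.clo h.zero m) : ℝ) /
      finrank k (BB R h.clo h.zero (m + 1))) atTop (𝓝 (1 / (Fintype.card ι : ℝ))) := by
  have h1 := ratio_LE h hD c hlow hpos Nat.one_pos (e0_mem h hx hφ) (e0_idem hne)
  rw [e0_rank hne, pow_one, Nat.cast_one] at h1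
  refine h1.congr fun m => ?_
  rw [finrank_LE_e0 h hx hφ hne]

theorem ratio_n (h : Rig R q qi σ) (hD : 0 < Fintype.card ι)
    (c : ℕ) (hlow : ∀ M, Fintype.card ι ^ M ≤ finrank k (BB R h.clo h.zero M) * c * (M + 1) ^ c)
    (hpos : ∀ M, 0 < finrank k (BB R h.clo h.zero M)) {x φ : T k ι 1} (hx : R 0 1 (cl x))
    (hφ : R 1 0 (ro φ)) (hne : φ ⬝ᵥ x ≠ 0) (n : ℕ) :
    Tendsto (fun m => (finrank k (BB R h.clo h.zero m) : ℝ) /
      finrank k (BB R h.clo h.zero (m + n))) atTop (𝓝 (1 / (Fintype.card ι : ℝ) ^ n)) := by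
  induction n with
  | zero =>
    rw [pow_zero, div_one]
    refine tendsto_const_nhds.congr fun m => ?_
    rw [Nat.add_zero, div_self]
    exact_mod_cast (hpos m).ne'
  | succ n ih =>
    have h1 := (ratio_one h hD c hlow hpos hx hφ hne).comp (tendsto_add_atTop_nat n)
    have h2 := ih.mul h1
    have h3 : 1 / (Fintype.card ι : ℝ) ^ n * (1 / (Fintype.card ι : ℝ)) =
        1 / (Fintype.card ι : ℝ) ^ (n + 1) := by
      rw [pow_succ]
      field_simp
    rw [h3] at h2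
    refine h2.congr fun m => ?_
    simp only [Function.comp_apply]
    have h4 : (finrank k (BB R h.clo h.zero (m + n)) : ℝ) ≠ 0 := by
      exact_mod_cast (hpos _).ne'
    rw [div_mul_div_cancel₀ h4]
    rfl

/-- the cyclic module generated by a class -/
def cyc (R : ∀ a c : ℕ, Matrix (Fin c → ι) (Fin a → ι) k → Prop) (hR : Cl R)
    (h0 : ∀ a c, R a c 0) {n : ℕ} (g : T k ι n) (m : ℕ) : Submodule k (T k ι m) :=
  (VV R hR h0 n m).map (mvL g)

theorem finrank_cyc (h : Rig R q qi σ) {n : ℕ} {g : T k ι n}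
    {e : Matrix (Fin n → ι) (Fin n → ι) k} (he : R n n e) (heg : e *ᵥ g = g)
    (hker : ∀ (m : ℕ) (x : Matrix (Fin m → ι) (Fin n → ι) k), R n m x → x *ᵥ g = 0 → x * e = 0)
    (hee : e * e = e) (m : ℕ) :
    finrank k (cyc R h.clo h.zero g m) = finrank k (RE R h.clo h.zero e m) := by
  have h1 : cyc R h.clo h.zero g m = (RE R h.clo h.zero e m).map (mvL g) := by
    refine le_antisymm ?_ (Submodule.map_mono fun x hx => hx.1)
    rintro _ ⟨x, hx, rfl⟩
    refine ⟨x * e, ⟨h.clo.comp he hx, ?_⟩, ?_⟩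
    · rw [Matrix.mul_assoc, hee]
    · change (x * e) *ᵥ g = x *ᵥ g
      rw [← Matrix.mulVec_mulVec, heg]
  refine le_antisymm ?_ ?_
  · rw [h1]
    exact Submodule.finrank_map_le _ _
  · rw [h1]
    refine finrank_le_of _ _ (mvL g) (fun x hx => ⟨x, hx, rfl⟩) fun x hx h2 => ?_
    have h3 := hker m x hx.1 h2
    have h4 : x * e = x := hx.2
    rw [← h4, h3]

end

end Pool.Agent.K4H35.QB
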