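import Mathlib
import Pool.Agent.K4H35.QH.C

/-!
# The quantization law for nondegenerate families
-/

set_option autoImplicit false
set_option linter.unusedSectionVars false

namespace Pool.Agent.K4H35.QB

open Matrix Module Filter Topology Pool.Agent.K4H54.PL Pool.Agent.K4H10.QZ

noncomputable section

variable {k : Type} [Field k] {ι : Type} [Fintype ι] [DecidableEq ι]
  {R : ∀ a c : ℕ, Matrix (Fin c → ι) (Fin a → ι) k → Prop} {q qi : Matrix ι ι k} {σ : ι → k}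

/-- The facts about idempotents in the family. -/
structure Facts (R : ∀ a c : ℕ, Matrix (Fin c → ι) (Fin a → ι) k → Prop) (hR : Cl R)
    (h0 : ∀ a c, R a c 0) : Prop where
  re : ∀ {n : ℕ} {e : Matrix (Fin n → ι) (Fin n → ι) k}, R n n e → e * e = e → ∀ m : ℕ,
    finrank k (RE R hR h0 e m) = finrank k (LE R hR h0 e m)
  idem : ∀ {n : ℕ} (g : T k ι n),
    ∃ e : Matrix (Fin n → ι) (Fin n → ι) k, R n n e ∧ e * e = e ∧ e *ᵥ g = g ∧
      ∀ (m : ℕ) (x : Matrix (Fin m → ι) (Fin n → ι) k), R n m x → x *ᵥ g = 0 → x * e = 0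
  compl : ∀ {n : ℕ} (S : Submodule k (T k ι n)),
    (∀ x : Matrix (Fin n → ι) (Fin n → ι) k, R n n x → ∀ s ∈ S, x *ᵥ s ∈ S) →
    ∀ g : T k ι n, g ∉ S →
    ∃ x : Matrix (Fin n → ι) (Fin n → ι) k, R n n x ∧ x *ᵥ g ≠ 0 ∧
      ∀ y : Matrix (Fin n → ι) (Fin n → ι) k, R n n y → y *ᵥ (x *ᵥ g) ∈ S →
        y *ᵥ (x *ᵥ g) = 0
  ann : ∀ {n m : ℕ} {y : Matrix (Fin m → ι) (Fin n → ι) k}, R n m y →
    (∀ z : Matrix (Fin n → ι) (Fin m → ι) k, R m n z → z * y = 0) → y = 0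

/-- The data of the law. -/
structure Dat (R : ∀ a c : ℕ, Matrix (Fin c → ι) (Fin a → ι) k → Prop) (q qi : Matrix ι ι k)
    (σ : ι → k) (x φ : T k ι 1) (c : ℕ) : Prop where
  rig : Rig R q qi σ
  facts : Facts R rig.clo rig.zero
  hD : 0 < Fintype.card ι
  low : ∀ M, Fintype.card ι ^ M ≤ finrank k (BB R rig.clo rig.zero M) * c * (M + 1) ^ c
  pos : ∀ M, 0 < finrank k (BB R rig.clo rig.zero M)
  hx : R 0 1 (cl x)
  hφ : R 1 0 (ro φ)
  ne : φ ⬝ᵥ x ≠ 0

variable {x φ : T k ι 1} {c : ℕ}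

/-- **The growth of a cyclic module.** -/
theorem ratio_cyc (h : Dat R q qi σ x φ c) {n : ℕ} (hn : 0 < n) (g : T k ι n) :
    ∃ r : ℕ, (g ≠ 0 → 1 ≤ r) ∧ Tendsto (fun m => (finrank k (cyc R h.rig.clo h.rig.zero g m) : ℝ) /
      finrank k (BB R h.rig.clo h.rig.zero m)) atTop (𝓝 r) := by
  obtain ⟨e, he, hee, heg, hker⟩ := h.facts.idem g
  refine ⟨e.rank, fun hg => one_le_rank hg heg, ?_⟩
  have h1 := ratio_LE h.rig h.hD c h.low h.pos hn he hee
  have h2 := ratio_n h.rig h.hD c h.low h.pos h.hx h.hφ h.ne n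
  have hDn : (0 : ℝ) < (Fintype.card ι : ℝ) ^ n := by
    have := h.hD
    positivity
  have h3 := h1.div h2 (by positivity)
  have h4 : (e.rank : ℝ) / (Fintype.card ι : ℝ) ^ n / (1 / (Fintype.card ι : ℝ) ^ n) = e.rank := by
    field_simp
  rw [h4] at h3
  refine h3.congr fun m => ?_
  rw [finrank_cyc h.rig he heg hker hee, h.facts.re he hee]
  have h5 : (finrank k (BB R h.rig.clo h.rig.zero m) : ℝ) ≠ 0 := by exact_mod_cast (h.pos m).ne'
  have h6 : (finrank k (BB R h.rig.clo h.rig.zero (m + n)) : ℝ) ≠ 0 := by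
    exact_mod_cast (h.pos _).ne'
  exact div_div_div_cancel_right₀ h6 _ _

/-- A submodule of `H`. -/
structure SubM (R : ∀ a c : ℕ, Matrix (Fin c → ι) (Fin a → ι) k → Prop)
    (H S : ∀ m, Submodule k (T k ι m)) : Prop where
  le : ∀ m, S m ≤ H m
  st : ∀ a c (F : Matrix (Fin c → ι) (Fin a → ι) k), R a c F → ∀ s ∈ S a, F *ᵥ s ∈ S c

theorem cyc_st (h : Rig R q qi σ) {n : ℕ} (g : T k ι n) (a c : ℕ)
    (F : Matrix (Fin c → ι) (Fin a → ι) k) (hF : R a c F) (s : T k ι a)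
    (hs : s ∈ cyc R h.clo h.zero g a) : F *ᵥ s ∈ cyc R h.clo h.zero g c := by
  obtain ⟨y, hy, rfl⟩ := hs
  refine ⟨F * y, h.clo.comp hy hF, ?_⟩
  change (F * y) *ᵥ g = F *ᵥ (y *ᵥ g)
  rw [Matrix.mulVec_mulVec]

/-- **The step.** -/
theorem step (h : Dat R q qi σ x φ c) {H S : ∀ m, Submodule k (T k ι m)}
    (hH : ∀ a c (F : Matrix (Fin c → ι) (Fin a → ι) k), R a c F → ∀ s ∈ H a, F *ᵥ s ∈ H c)
    (hS : SubM R H S) {n : ℕ} (hn : 0 < n) (hne : S n ≠ H n) :
    ∃ (S' : ∀ m, Submodule k (T k ι m)) (r : ℕ), SubM R H S' ∧ (∀ m, S m ≤ S' m) ∧ 1 ≤ r ∧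
      Tendsto (fun m => ((finrank k (S' m) : ℝ) - finrank k (S m)) /
        finrank k (BB R h.rig.clo h.rig.zero m)) atTop (𝓝 r) := by
  obtain ⟨g, hg, hgS⟩ : ∃ g ∈ H n, g ∉ S n := by
    by_contra hcon
    push Not at hcon
    exact hne (le_antisymm (hS.le n) hcon)
  obtain ⟨w, hw, hwg, hws⟩ := h.facts.compl (S n) (fun y hy s hs => hS.st n n y hy s hs) g hgS
  obtain ⟨e, he, hee, heg, hker⟩ := h.facts.idem (w *ᵥ g)
  obtain ⟨r, hr1, hr⟩ := ratio_cyc h hn (w *ᵥ g)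
  have hgH : w *ᵥ g ∈ H n := hH n n w hw g hg
  have hdisj : ∀ m, S m ⊓ cyc R h.rig.clo h.rig.zero (w *ᵥ g) m = ⊥ := by
    intro m
    rw [Submodule.eq_bot_iff]
    rintro z ⟨hzS, y, hy, rfl⟩
    have hy' : R n m y := hy
    have h1 : ∀ u : Matrix (Fin n → ι) (Fin m → ι) k, R m n u → u * (y * e) = 0 := by
      intro u hu
      rw [← Matrix.mul_assoc]
      refine hker n (u * y) (h.rig.clo.comp hy' hu) ?_
      refine hws (u * y) (h.rig.clo.comp hy' hu) ?_
      rw [← Matrix.mulVec_mulVec]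
      exact hS.st m n u hu _ hzS
    have h2 := h.facts.ann (h.rig.clo.comp he hy') h1
    change y *ᵥ (w *ᵥ g) = 0
    rw [← heg, Matrix.mulVec_mulVec, h2, Matrix.zero_mulVec]
  refine ⟨fun m => S m ⊔ cyc R h.rig.clo h.rig.zero (w *ᵥ g) m, r, ⟨fun m => ?_, ?_⟩,
    fun m => le_sup_left, hr1 hwg, ?_⟩
  · refine sup_le (hS.le m) ?_
    rintro _ ⟨y, hy, rfl⟩
    exact hH n m y hy _ hgH
  · intro a c F hF s hs
    obtain ⟨s1, hs1, s2, hs2, rfl⟩ := Submodule.mem_sup.1 hs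
    rw [Matrix.mulVec_add]
    exact Submodule.add_mem_sup (hS.st a c F hF s1 hs1) (cyc_st h.rig _ a c F hF s2 hs2)
  · refine hr.congr fun m => ?_
    have h1 := Submodule.finrank_sup_add_finrank_inf_eq (S m)
      (cyc R h.rig.clo h.rig.zero (w *ᵥ g) m)
    rw [hdisj m, finrank_bot, add_zero] at h1
    have h2 : ((finrank k ↥(S m ⊔ cyc R h.rig.clo h.rig.zero (w *ᵥ g) m) : ℕ) : ℝ) =
        finrank k (S m) + finrank k (cyc R h.rig.clo h.rig.zero (w *ᵥ g) m) := by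
      rw [h1]
      push_cast
      rfl
    rw [h2, add_sub_cancel_left]

/-- If `S` is equal to `H` in positive degrees, then it is equal to `H`. -/
theorem eq_of_pos (h : Dat R q qi σ x φ c) {H S : ∀ m, Submodule k (T k ι m)}
    (hH : ∀ a c (F : Matrix (Fin c → ι) (Fin a → ι) k), R a c F → ∀ s ∈ H a, F *ᵥ s ∈ H c)
    (hS : SubM R H S) (h1 : S 1 = H 1) : S 0 = H 0 := by
  refine le_antisymm (hS.le 0) fun s hs => ?_
  have h2 := hH 0 1 (cl x) h.hx s hs
  rw [← h1] at h2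
  have h3 := hS.st 1 0 (ro φ) h.hφ _ h2
  rw [Matrix.mulVec_mulVec, ro_cl, Matrix.smul_mulVec, Matrix.one_mulVec] at h3
  have h4 := Submodule.smul_mem (S 0) (φ ⬝ᵥ x)⁻¹ h3
  rwa [smul_smul, inv_mul_cancel₀ h.ne, one_smul] at h4

/-- **The quantization law for nondegenerate families.** -/
theorem law_nd (h : Dat R q qi σ x φ c) {H : ∀ m, Submodule k (T k ι m)}
    (hH : ∀ a c (F : Matrix (Fin c → ι) (Fin a → ι) k), R a c F → ∀ s ∈ H a, F *ᵥ s ∈ H c)
    (hBH : ∀ m, BB R h.rig.clo h.rig.zero m ≤ H m) :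
    Tendsto (fun m => (finrank k (BB R h.rig.clo h.rig.zero m) : ℝ) / finrank k (H m)) atTop (𝓝 0) ∨
      ∃ K : ℕ, 1 ≤ K ∧ Tendsto (fun m => (finrank k (BB R h.rig.clo h.rig.zero m) : ℝ) /
        finrank k (H m)) atTop (𝓝 (1 / K)) ∧
        (K = 1 → ∀ m, BB R h.rig.clo h.rig.zero m = H m) := by
  have hb : ∀ m, (0 : ℝ) < finrank k (BB R h.rig.clo h.rig.zero m) := fun m => by
    exact_mod_cast h.pos m
  have hbH : ∀ m, (finrank k (BB R h.rig.clo h.rig.zero m) : ℝ) ≤ finrank k (H m) := fun m => by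
    exact_mod_cast Submodule.finrank_mono (hBH m)
  by_cases hT : ∃ (S : ∀ m, Submodule k (T k ι m)) (K : ℕ), SubM R H S ∧
      Tendsto (fun m => (finrank k (S m) : ℝ) / finrank k (BB R h.rig.clo h.rig.zero m)) atTop
        (𝓝 K) ∧ (K = 1 → ∀ m, S m = BB R h.rig.clo h.rig.zero m) ∧ 1 ≤ K ∧
        ∀ n, 0 < n → S n = H n
  · right
    obtain ⟨S, K, hS, hlim, hK1, hK, heq⟩ := hT
    have heq' : ∀ n, S n = H n := by
      intro n
      rcases Nat.eq_zero_or_pos n with rfl | hn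
      · exact eq_of_pos h hH hS (heq 1 Nat.one_pos)
      · exact heq n hn
    refine ⟨K, hK, ?_, fun h1 m => ?_⟩
    · have h1 := hlim.inv₀ (by exact_mod_cast (by omega : K ≠ 0))
      rw [← one_div] at h1
      refine h1.congr fun m => ?_
      rw [heq' m, inv_div]
    · rw [← heq' m]
      exact (hK1 h1 m).symm
  · left
    have hall : ∀ N : ℕ, ∃ (S : ∀ m, Submodule k (T k ι m)) (K : ℕ), SubM R H S ∧
      Tendsto (fun m => (finrank k (S m) : ℝ) / finrank k (BB R h.rig.clo h.rig.zero m)) atTop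
        (𝓝 K) ∧ (K = 1 → ∀ m, S m = BB R h.rig.clo h.rig.zero m) ∧ 1 ≤ K ∧ N ≤ K := by
      intro N
      induction N with
      | zero =>
        refine ⟨fun m => BB R h.rig.clo h.rig.zero m, 1, ⟨hBH, ?_⟩, ?_, fun _ _ => rfl, le_rfl,
          Nat.zero_le _⟩
        · intro a c F hF s hs
          exact h.rig.clo.comp hs hF
        · refine tendsto_const_nhds.congr fun m => ?_
          rw [div_self (hb m).ne', Nat.cast_one]
      | succ N ih =>
        obtain ⟨S, K, hS, hlim, hK1, hK, hN⟩ := ih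
        obtain ⟨n, hn, hne⟩ : ∃ n, 0 < n ∧ S n ≠ H n := by
          by_contra hcon
          push Not at hcon
          exact hT ⟨S, K, hS, hlim, hK1, hK, hcon⟩
        obtain ⟨S', r, hS', hle, hr, hlim'⟩ := step h hH hS hn hne
        refine ⟨S', K + r, hS', ?_, fun h1 => absurd h1 (by omega), by omega, by omega⟩
        have h1 := hlim.add hlim'
        have h2 : ((K + r : ℕ) : ℝ) = (K : ℝ) + r := by push_cast; rfl
        rw [h2]
        refine h1.congr fun m => ?_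
        rw [← add_div, add_sub_cancel]
    rw [Metric.tendsto_atTop]
    intro δ hδ
    obtain ⟨N, hN⟩ := exists_nat_gt (1 / δ + 1)
    obtain ⟨S, K, hS, hlim, -, -, hNK⟩ := hall N
    have hK' : 1 / δ < (K : ℝ) := by
      have : (N : ℝ) ≤ K := by exact_mod_cast hNK
      linarith
    have h1 := hlim.eventually (lt_mem_nhds hK')
    obtain ⟨M, hM⟩ := eventually_atTop.1 h1
    refine ⟨M, fun m hm => ?_⟩
    have h2 := hM m hm
    have h3 : (finrank k (S m) : ℝ) ≤ finrank k (H m) := by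
      exact_mod_cast Submodule.finrank_mono (hS.le m)
    have h4 : (0 : ℝ) < finrank k (H m) := lt_of_lt_of_le (hb m) (hbH m)
    rw [Real.dist_eq, sub_zero, abs_of_nonneg (by positivity), div_lt_iff₀ h4]
    rw [lt_div_iff₀ (hb m)] at h2
    have h5 : (finrank k (BB R h.rig.clo h.rig.zero m) : ℝ) < δ * finrank k (S m) := by
      have h6 := mul_lt_mul_of_pos_left h2 hδ
      have h7 : δ * (1 / δ * (finrank k (BB R h.rig.clo h.rig.zero m) : ℝ)) =
          finrank k (BB R h.rig.clo h.rig.zero m) := by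
        field_simp
      rw [h7] at h6
      exact h6
    exact lt_of_lt_of_le h5 (mul_le_mul_of_nonneg_left h3 hδ.le)

end

end Pool.Agent.K4H35.QB
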