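import Mathlib
import Pool.Agent.K4H54.PL.Planar

/-!
# The radical of a closed family
-/

set_option autoImplicit false
set_option linter.unusedSectionVars false

namespace Pool.Agent.K4H35.QH

open Matrix Module Pool.Agent.K4H54.PL

noncomputable section

variable {k : Type} [Field k] {ι : Type} [Fintype ι] [DecidableEq ι]
  {R : ∀ a c : ℕ, Matrix (Fin c → ι) (Fin a → ι) k → Prop}

/-- the classes in the family on which all forms in the family vanish -/
def rad (R : ∀ a c : ℕ, Matrix (Fin c → ι) (Fin a → ι) k → Prop) (hR : Cl R)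
    (h0 : ∀ a c, R a c 0) (m : ℕ) : Submodule k (T k ι m) where
  carrier := {x | R 0 m (cl x) ∧ ∀ φ : T k ι m, R m 0 (ro φ) → φ ⬝ᵥ x = 0}
  zero_mem' := ⟨(BB R hR h0 m).zero_mem, fun φ _ => dotProduct_zero φ⟩
  add_mem' := fun {x y} hx hy => ⟨(BB R hR h0 m).add_mem hx.1 hy.1, fun φ hφ => by
    rw [dotProduct_add, hx.2 φ hφ, hy.2 φ hφ, add_zero]⟩
  smul_mem' := fun r x hx => ⟨(BB R hR h0 m).smul_mem r hx.1, fun φ hφ => by
    rw [dotProduct_smul, hx.2 φ hφ, smul_zero]⟩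

theorem ro_mul_cl_eq_zero {m : ℕ} (φ x : T k ι m) : ro φ * cl x = 0 ↔ φ ⬝ᵥ x = 0 := by
  constructor
  · intro h
    have h1 := congrFun (congrFun h Fin.elim0) Fin.elim0
    rw [ro_mul_cl] at h1
    exact h1
  · intro h
    ext u w
    rw [ro_mul_cl]
    exact h

theorem finrank_rad (hR : Cl R) (h0 : ∀ a c, R a c 0) (m : ℕ) :
    finrank k (Submodule.span k {F : Matrix (Fin m → ι) (Fin 0 → ι) k | R 0 m F ∧
      ∀ G : Matrix (Fin 0 → ι) (Fin m → ι) k, R m 0 G → G * F = 0}) =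
      finrank k (rad R hR h0 m) := by
  rw [LinearEquiv.finrank_eq (Submodule.equivMapOfInjective _ (clL_injective m) (rad R hR h0 m))]
  have h1 : (rad R hR h0 m).map (clL k ι m) =
      Submodule.span k {F : Matrix (Fin m → ι) (Fin 0 → ι) k | R 0 m F ∧
        ∀ G : Matrix (Fin 0 → ι) (Fin m → ι) k, R m 0 G → G * F = 0} := by
    refine le_antisymm ?_ (Submodule.span_le.2 ?_)
    · rintro _ ⟨x, hx, rfl⟩
      refine Submodule.subset_span ⟨hx.1, fun G hG => ?_⟩
      obtain ⟨φ, rfl⟩ := exists_ro G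
      exact (ro_mul_cl_eq_zero φ x).2 (hx.2 φ hG)
    · rintro F ⟨hF, hF'⟩
      obtain ⟨x, rfl⟩ := exists_cl F
      exact ⟨x, ⟨hF, fun φ hφ => (ro_mul_cl_eq_zero φ x).1 (hF' _ hφ)⟩, rfl⟩
  rw [h1]

end

end Pool.Agent.K4H35.QH
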