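import Mathlib
import Pool.Agent.K4H54.PL.HalfFam
import Pool.Agent.K4H35.QH.Rad
import Pool.Agent.K4H35.QH.D

/-!
# The quantization law: degenerate families, and the general statement
-/

set_option autoImplicit false
set_option linter.unusedSectionVars false

namespace Pool.Agent.K4H35.QB

open Matrix Module Filter Topology Pool.Agent.K4H54.PL Pool.Agent.K4H10.QZ
open Pool.Agent.K4H35.QH (rad)

noncomputable section

variable {k : Type} [Field k] {ι : Type} [Fintype ι] [DecidableEq ι]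
  {R RH : ∀ a c : ℕ, Matrix (Fin c → ι) (Fin a → ι) k → Prop} {q qi : Matrix ι ι k} {σ : ι → k}
  {o v : ι → k} {d : ι → ℕ}

theorem rad_st (hR : Cl R) (h0 : ∀ a c, R a c 0) {a c : ℕ}
    {F : Matrix (Fin c → ι) (Fin a → ι) k} (hF : R a c F) {x : T k ι a}
    (hx : x ∈ rad R hR h0 a) : F *ᵥ x ∈ rad R hR h0 c := by
  refine ⟨hR.comp hx.1 hF, fun φ hφ => ?_⟩
  rw [Matrix.dotProduct_mulVec]
  exact hx.2 _ (hR.comp hF hφ)

theorem ten_eq {n m : ℕ} (z : T k ι n) (x : T k ι m) :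
    (ex (1 : Matrix (Fin n → ι) (Fin n → ι) k) (cl x) :
      Matrix (Fin (n + m) → ι) (Fin (n + 0) → ι) k) *ᵥ z = ten z x := by
  funext u
  change ∑ w : Fin n → ι, ((1 : Matrix (Fin n → ι) (Fin n → ι) k)
    (fun i => u (Fin.castAdd m i)) w * x (fun i => u (Fin.natAdd n i))) * z w = _
  rw [Finset.sum_eq_single (fun i => u (Fin.castAdd m i))]
  · rw [one_apply_eq, one_mul]
    exact mul_comm _ _
  · intro w _ hw
    rw [Matrix.one_apply_ne (Ne.symm hw), zero_mul, zero_mul]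
  · intro h
    exact absurd (Finset.mem_univ _) h

theorem ten_rad (hR : Cl R) (h0 : ∀ a c, R a c 0) (h1 : ∀ n, R n n 1) {n m : ℕ} {z : T k ι n}
    {x : T k ι m} (hz : z ∈ rad R hR h0 n) (hx : R 0 m (cl x)) :
    ten z x ∈ rad R hR h0 (n + m) := by
  rw [← ten_eq]
  exact rad_st hR h0 (hR.prod (h1 n) hx) hz

theorem act_rad (hR : Cl R) (h0 : ∀ a c, R a c 0) {N : ℕ}
    {s : (Fin N → ι) → k} {τ : Equiv.Perm (Fin N)} (hM : R N N (MP s τ)) {x : T k ι N}
    (hx : x ∈ rad R hR h0 N) : K4H10.ZO.act s τ x ∈ rad R hR h0 N := by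
  have h1 : MP s τ *ᵥ x = K4H10.ZO.act s τ x := by
    funext V
    have h2 := MP_mul_apply s τ (cl x) V Fin.elim0
    exact h2
  rw [← h1]
  exact rad_st hR h0 hM hx

/-- **The radical grows.** -/
theorem rad_grow (hR : Cl R) (h0 : ∀ a c, R a c 0) (h1 : ∀ n, R n n 1) (hs : R 2 2 (ssw k d))
    [Nonempty ι] {n : ℕ} (hn : 0 < n) (hz : rad R hR h0 n ≠ ⊥) (ε : ℝ) (hε : 0 < ε)
    (hε1 : ε < 1) :
    ∃ C κ : ℝ, 0 ≤ C ∧ 0 < κ ∧ κ < 1 ∧ ∀ m, (1 - ε) * (Fintype.card ι : ℝ) ^ n *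
      ((finrank k (BB R hR h0 m) : ℝ) - C * κ ^ m * (Fintype.card ι : ℝ) ^ m) ≤
        (finrank k (rad R hR h0 (n + m)) : ℝ) := by
  obtain ⟨C, κ, hC, hκ, hκ1, h⟩ := K4H10.ZO.count_words' k ι n hn ε hε hε1
  refine ⟨C, κ, hC, hκ, hκ1, fun m => ?_⟩
  refine h m (n + m) (Nat.add_comm n m) (BB R hR h0 m) (rad R hR h0 n) (rad R hR h0 (n + m)) hz ?_
  intro p c hd
  obtain ⟨τ, e1, e2⟩ := K4H10.ZO.exists_plc (a := n) (b := m) p.injective c.injective hd
  obtain ⟨s, hs', hM⟩ := good_all hR h1 hs (n + m) τ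
  refine ⟨s, fun V => ?_, fun x hx z hz' => ?_⟩
  · rcases hs' V with h1 | h1 <;> rw [h1]
    · exact one_ne_zero
    · exact neg_ne_zero.2 one_ne_zero
  · have h3 : K4H10.ZO.act s τ (ten z x) = fun V => s V * (x (V ∘ c) * z (V ∘ p)) := by
      funext V
      unfold K4H10.ZO.act ten
      rw [mul_comm (x _)]
      congr 2
      · congr 1
        funext i
        simp [e1]
      · congr 1
        funext i
        simp [e2]
    rw [← h3]
    exact act_rad hR h0 hM (ten_rad hR h0 h1 hz' hx)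

theorem rad_zero (hR : Cl R) (h0 : ∀ a c, R a c 0) (h1 : R 0 0 1) : rad R hR h0 0 = ⊥ := by
  rw [Submodule.eq_bot_iff]
  intro x hx
  have h3 : ro (fun _ => 1 : T k ι 0) = 1 := by
    ext u w
    rw [Subsingleton.elim u w, Matrix.one_apply_eq]
    rfl
  have h2 := hx.2 (fun _ => 1) (by rw [h3]; exact h1)
  funext V
  have h4 : (fun _ => 1 : T k ι 0) ⬝ᵥ x = x V := by
    unfold dotProduct
    rw [Fintype.sum_subsingleton _ V, one_mul]
  rw [← h4, h2]
  rfl

theorem mono_BB (h : Pair R RH q qi o v d) (m : ℕ) :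
    finrank k (BB R h.pl.clo h.pl.zero m) ≤ finrank k (BB R h.pl.clo h.pl.zero (m + 1)) := by
  obtain ⟨V, hV⟩ : ∃ V, (v1 v : T k ι 1) V ≠ 0 := Function.ne_iff.1 h.pl.v1_ne
  have hinj : Function.Injective (tenR (k := k) (v1 v : T k ι 1) m) := by
    rw [injective_iff_map_eq_zero]
    intro z hz
    funext U
    have h1 := congrFun hz (Fin.append U V)
    change z (fun i => Fin.append U V (Fin.castAdd 1 i)) *
      (v1 v : T k ι 1) (fun i => Fin.append U V (Fin.natAdd m i)) = 0 at h1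
    have h2 : (fun i => Fin.append U V (Fin.castAdd 1 i)) = U := by
      funext i; exact Fin.append_left U V i
    have h3 : (fun i => Fin.append U V (Fin.natAdd m i)) = V := by
      funext i; exact Fin.append_right U V i
    rw [h2, h3] at h1
    exact (mul_eq_zero.mp h1).resolve_right hV
  have h1 : finrank k (BB R h.pl.clo h.pl.zero m) =
      finrank k ((BB R h.pl.clo h.pl.zero m).map (tenR (v1 v : T k ι 1) m)) :=
    LinearEquiv.finrank_eq (Submodule.equivMapOfInjective _ hinj _)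
  rw [h1]
  apply Submodule.finrank_mono
  rintro _ ⟨x, hx, rfl⟩
  exact ten_cl h.pl.clo hx h.pl.pt

theorem pos_B (h : Pair R RH q qi o v d) (m : ℕ) :
    0 < finrank k (BB R h.pl.clo h.pl.zero m) := by
  induction m with
  | zero =>
    rw [Module.finrank_pos_iff]
    exact Submodule.nontrivial_iff_ne_bot.mpr h.bot
  | succ m ih => exact ih.trans_le (mono_BB h m)

theorem low_B [CharZero k] (h : Pair R RH q qi o v d) : ∃ c : ℕ, ∀ M : ℕ,
    Fintype.card ι ^ M ≤ finrank k (BB R h.pl.clo h.pl.zero M) * c * (M + 1) ^ c := by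
  have hgen : ∀ j M : ℕ, j ≤ M → (j + 1) ^ (Fintype.card ι ^ 2) ≤
      (M + 1) ^ (Fintype.card ι ^ 2 + Fintype.card ι + 1) := by
    intro j M hj
    exact (Nat.pow_le_pow_left (by omega) _).trans
      (Nat.pow_le_pow_right (Nat.succ_pos _) (by omega))
  refine ⟨Fintype.card ι ^ 2 + Fintype.card ι + 1, fun M => ?_⟩
  rcases Nat.even_or_odd' M with ⟨j, rfl | rfl⟩
  · refine (h.low j).trans ?_
    rw [mul_assoc]
    refine Nat.mul_le_mul_left _ ((hgen j (2 * j) (by omega)).trans ?_)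
    exact Nat.le_mul_of_pos_left _ (by omega)
  · calc Fintype.card ι ^ (2 * j + 1) = Fintype.card ι ^ (2 * j) * Fintype.card ι := pow_succ _ _
      _ ≤ finrank k (BB R h.pl.clo h.pl.zero (2 * j)) * (j + 1) ^ (Fintype.card ι ^ 2) *
          Fintype.card ι := Nat.mul_le_mul_right _ (h.low j)
      _ = finrank k (BB R h.pl.clo h.pl.zero (2 * j)) * Fintype.card ι *
          (j + 1) ^ (Fintype.card ι ^ 2) := by ring
      _ ≤ finrank k (BB R h.pl.clo h.pl.zero (2 * j + 1)) *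
          (Fintype.card ι ^ 2 + Fintype.card ι + 1) *
          (2 * j + 1 + 1) ^ (Fintype.card ι ^ 2 + Fintype.card ι + 1) := by
        refine Nat.mul_le_mul (Nat.mul_le_mul (mono_BB h (2 * j)) (by omega)) ?_
        exact hgen j (2 * j + 1) (by omega)

/-- **Degenerate families have rank zero asymptotically.** -/
theorem law_deg [CharZero k] (h : Pair R RH q qi o v d) (hr : Rig R q qi σ)
    {n : ℕ} (hn : rad R h.pl.clo h.pl.zero n ≠ ⊥) :
    Tendsto (fun m => ((finrank k (BB R h.pl.clo h.pl.zero m) : ℝ) -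
      finrank k (rad R h.pl.clo h.pl.zero m)) / finrank k (BB R h.pl.clo h.pl.zero m))
      atTop (𝓝 0) := by
  haveI hne : Nonempty ι := by
    obtain ⟨V, -⟩ := Function.ne_iff.1 h.pl.v1_ne
    exact ⟨V 0⟩
  have hD : 0 < Fintype.card ι := Fintype.card_pos
  have hn0 : 0 < n := by
    rcases Nat.eq_zero_or_pos n with rfl | hn0
    · exact absurd (rad_zero h.pl.clo h.pl.zero (h.pl.idn 0)) hn
    · exact hn0
  obtain ⟨c, hlow⟩ := low_B h
  have hvl : v1 (o ᵥ* q) ⬝ᵥ v1 v ≠ 0 := by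
    rw [dotProduct_comm]
    exact h.pl.hvl
  have hratio := ratio_n hr hD c hlow (pos_B h) h.pl.pt h.pl.form1 hvl n
  have hb : ∀ m, (0 : ℝ) < finrank k (BB R h.pl.clo h.pl.zero m) := fun m => by
    exact_mod_cast pos_B h m
  have hDr : (0 : ℝ) < Fintype.card ι := by exact_mod_cast hD
  -- shift by `n`
  rw [← tendsto_add_atTop_iff_nat n, Metric.tendsto_atTop]
  intro δ hδ
  -- choose `ε`
  obtain ⟨ε, hε, hε1, hεδ⟩ : ∃ ε : ℝ, 0 < ε ∧ ε < 1 ∧ ε < δ :=
    ⟨min (1 / 2) (δ / 2), by positivity, (min_le_left _ _).trans_lt (by norm_num),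
      (min_le_right _ _).trans_lt (by linarith)⟩
  obtain ⟨C, κ, hC, hκ, hκ1, hgrow⟩ :=
    rad_grow h.pl.clo h.pl.zero h.pl.idn h.symm hn0 hn ε hε hε1
  -- the error term
  have herr : Tendsto (fun m : ℕ => C * κ ^ m * (Fintype.card ι : ℝ) ^ m /
      finrank k (BB R h.pl.clo h.pl.zero m)) atTop (𝓝 0) := by
    have h1 : Tendsto (fun m : ℕ => C * c * (2 ^ c * ((m : ℝ) ^ c * κ ^ m))) atTop (𝓝 0) := by
      have h2 := tendsto_pow_const_mul_const_pow_of_lt_one c hκ.le hκ1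
      have h3 := (h2.const_mul ((2 : ℝ) ^ c)).const_mul (C * c)
      rw [mul_zero, mul_zero] at h3
      exact h3
    refine squeeze_zero' (Eventually.of_forall fun m => by positivity) ?_ h1
    filter_upwards [eventually_ge_atTop 1] with m hm
    rw [div_le_iff₀ (hb m)]
    have h2 : ((Fintype.card ι ^ m : ℕ) : ℝ) ≤
        ((finrank k (BB R h.pl.clo h.pl.zero m) * c * (m + 1) ^ c : ℕ) : ℝ) := by
      exact_mod_cast hlow m
    push_cast at h2
    have h3 : ((m : ℝ) + 1) ^ c ≤ 2 ^ c * (m : ℝ) ^ c := by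
      rw [← mul_pow]
      have : (1 : ℝ) ≤ m := by exact_mod_cast hm
      exact pow_le_pow_left₀ (by positivity) (by linarith) _
    have h4 : (Fintype.card ι : ℝ) ^ m ≤
        (finrank k (BB R h.pl.clo h.pl.zero m) : ℝ) * c * (2 ^ c * (m : ℝ) ^ c) :=
      h2.trans (mul_le_mul_of_nonneg_left h3 (by positivity))
    calc C * κ ^ m * (Fintype.card ι : ℝ) ^ m
        ≤ C * κ ^ m * ((finrank k (BB R h.pl.clo h.pl.zero m) : ℝ) * c * (2 ^ c * (m : ℝ) ^ c)) :=
          mul_le_mul_of_nonneg_left h4 (by positivity)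
      _ = _ := by ring
  have hlim : Tendsto (fun m : ℕ => 1 - (1 - ε) * (Fintype.card ι : ℝ) ^ n *
      ((1 - C * κ ^ m * (Fintype.card ι : ℝ) ^ m / finrank k (BB R h.pl.clo h.pl.zero m)) *
        ((finrank k (BB R h.pl.clo h.pl.zero m) : ℝ) /
          finrank k (BB R h.pl.clo h.pl.zero (m + n))))) atTop (𝓝 ε) := by
    have h1 := (((tendsto_const_nhds (x := (1 : ℝ))).sub herr).mul hratio).const_mul
      ((1 - ε) * (Fintype.card ι : ℝ) ^ n)
    have h2 := (tendsto_const_nhds (x := (1 : ℝ))).sub h1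
    have h3 : 1 - (1 - ε) * (Fintype.card ι : ℝ) ^ n *
        ((1 - 0) * (1 / (Fintype.card ι : ℝ) ^ n)) = ε := by
      field_simp
      ring
    rw [h3] at h2
    exact h2
  have hev := hlim.eventually (gt_mem_nhds hεδ)
  obtain ⟨M, hM⟩ := eventually_atTop.1 hev
  refine ⟨M, fun m hm => ?_⟩
  have h1 := hM m hm
  have h2 := hgrow m
  rw [Nat.add_comm n m] at h2
  have h3 : (finrank k (rad R h.pl.clo h.pl.zero (m + n)) : ℝ) ≤
      finrank k (BB R h.pl.clo h.pl.zero (m + n)) := by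
    have : rad R h.pl.clo h.pl.zero (m + n) ≤ BB R h.pl.clo h.pl.zero (m + n) := fun x hx => hx.1
    exact_mod_cast Submodule.finrank_mono this
  rw [Real.dist_eq, sub_zero, abs_of_nonneg (div_nonneg (by linarith) (hb _).le)]
  refine lt_of_le_of_lt ?_ h1
  rw [sub_div, div_self (hb _).ne']
  have h5 : (1 - ε) * (Fintype.card ι : ℝ) ^ n *
      ((1 - C * κ ^ m * (Fintype.card ι : ℝ) ^ m / finrank k (BB R h.pl.clo h.pl.zero m)) *
        ((finrank k (BB R h.pl.clo h.pl.zero m) : ℝ) /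
          finrank k (BB R h.pl.clo h.pl.zero (m + n)))) =
      (1 - ε) * (Fintype.card ι : ℝ) ^ n *
      ((finrank k (BB R h.pl.clo h.pl.zero m) : ℝ) - C * κ ^ m * (Fintype.card ι : ℝ) ^ m) /
        finrank k (BB R h.pl.clo h.pl.zero (m + n)) := by
    have := (hb m).ne'
    field_simp
  rw [h5]
  have h6 := div_le_div_of_nonneg_right h2 (hb (m + n)).le
  linarith

/-- **The quantization law**, given the facts on idempotents for nondegenerate families. -/
theorem law_gen [CharZero k] (h : Pair R RH q qi o v d) (hr : Rig R q qi σ)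
    (hF : Nondeg R → Facts R h.pl.clo h.pl.zero)
    (H : ∀ m, Submodule k (T k ι m)) (hBH : ∀ m, BB R h.pl.clo h.pl.zero m ≤ H m)
    (hH : ∀ (a c : ℕ) (F : Matrix (Fin c → ι) (Fin a → ι) k), R a c F →
      ∀ x ∈ H a, F *ᵥ x ∈ H c) :
    (Tendsto (fun m => (finrank k (BB R h.pl.clo h.pl.zero m) -
        finrank k (rad R h.pl.clo h.pl.zero m) : ℝ) / finrank k (H m)) atTop (𝓝 0)) ∨
      ((∀ m, rad R h.pl.clo h.pl.zero m = ⊥) ∧ ∃ K : ℕ, 1 ≤ K ∧
        Tendsto (fun m => (finrank k (BB R h.pl.clo h.pl.zero m) : ℝ) / finrank k (H m))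
          atTop (𝓝 (1 / K)) ∧
        (K = 1 → ∀ m, BB R h.pl.clo h.pl.zero m = H m)) := by
  have hb : ∀ m, (0 : ℝ) < finrank k (BB R h.pl.clo h.pl.zero m) := fun m => by
    exact_mod_cast pos_B h m
  have hbH : ∀ m, (finrank k (BB R h.pl.clo h.pl.zero m) : ℝ) ≤ finrank k (H m) := fun m => by
    exact_mod_cast Submodule.finrank_mono (hBH m)
  have hrb : ∀ m, (finrank k (rad R h.pl.clo h.pl.zero m) : ℝ) ≤
      finrank k (BB R h.pl.clo h.pl.zero m) := fun m => by
    have : rad R h.pl.clo h.pl.zero m ≤ BB R h.pl.clo h.pl.zero m := fun x hx => hx.1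
    exact_mod_cast Submodule.finrank_mono this
  by_cases hdeg : ∃ n, rad R h.pl.clo h.pl.zero n ≠ ⊥
  · left
    obtain ⟨n, hn⟩ := hdeg
    refine squeeze_zero (fun m => div_nonneg (by linarith [hrb m]) (by positivity))
      (fun m => ?_) (law_deg h hr hn)
    exact div_le_div_of_nonneg_left (by linarith [hrb m]) (hb m) (hbH m)
  · push Not at hdeg
    have hnd : Nondeg R := by
      intro m x hx hφ
      have h1 : x ∈ rad R h.pl.clo h.pl.zero m := ⟨hx, hφ⟩
      rw [hdeg m, Submodule.mem_bot] at h1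
      exact h1
    haveI hne : Nonempty ι := by
      obtain ⟨V, -⟩ := Function.ne_iff.1 h.pl.v1_ne
      exact ⟨V 0⟩
    obtain ⟨c, hlow⟩ := low_B h
    have hvl : v1 (o ᵥ* q) ⬝ᵥ v1 v ≠ 0 := by
      rw [dotProduct_comm]
      exact h.pl.hvl
    have hdat : Dat R q qi σ (v1 v) (v1 (o ᵥ* q)) c :=
      { rig := hr
        facts := hF hnd
        hD := Fintype.card_pos
        low := hlow
        pos := pos_B h
        hx := h.pl.pt
        hφ := h.pl.form1
        ne := hvl }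
    rcases law_nd hdat hH hBH with h1 | h1
    · left
      refine h1.congr fun m => ?_
      rw [hdeg m, finrank_bot, Nat.cast_zero, sub_zero]
    · right
      exact ⟨hdeg, h1⟩

end

end Pool.Agent.K4H35.QB
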