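import Mathlib
import Pool.Agent.K4H10.QZ.T4
import Pool.Agent.K4H10.QZ.T4a
import Pool.Agent.K4H35.QH.E

/-!
# The quantization law for closed families of correspondences
-/

set_option autoImplicit false
set_option linter.unusedSectionVars false

namespace Pool.Agent.K4H35.QB

open Matrix Module Filter Topology Pool.Agent.K4H54.PL Pool.Agent.K4H10.QZ
open Pool.Agent.K4H35.QH (rad)

noncomputable section

variable {k : Type} [Field k] {ι : Type} [Fintype ι] [DecidableEq ι]
  {R RH : ∀ a c : ℕ, Matrix (Fin c → ι) (Fin a → ι) k → Prop} {q qi : Matrix ι ι k} {σ : ι → k}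
  {o v : ι → k} {d : ι → ℕ}

theorem facts [CharZero k] (h : Rig R q qi σ) (hnd : Nondeg R) : Facts R h.clo h.zero where
  re := fun he hee m => finrank_RE h hnd he hee m
  idem := fun g => exists_idem h hnd g
  compl := fun S hS g hg => exists_compl h hnd S hS g hg
  ann := fun hy h0 => eq_zero_of_forall h hnd hy h0

/-- **The quantization law.** -/
theorem law_all [CharZero k] (h : Pair R RH q qi o v d) (hr : Rig R q qi σ)
    (H : ∀ m, Submodule k (T k ι m)) (hBH : ∀ m, BB R h.pl.clo h.pl.zero m ≤ H m)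
    (hH : ∀ (a c : ℕ) (F : Matrix (Fin c → ι) (Fin a → ι) k), R a c F →
      ∀ x ∈ H a, F *ᵥ x ∈ H c) :
    (Tendsto (fun m => (finrank k (BB R h.pl.clo h.pl.zero m) -
        finrank k (rad R h.pl.clo h.pl.zero m) : ℝ) / finrank k (H m)) atTop (𝓝 0)) ∨
      ((∀ m, rad R h.pl.clo h.pl.zero m = ⊥) ∧ ∃ K : ℕ, 1 ≤ K ∧
        Tendsto (fun m => (finrank k (BB R h.pl.clo h.pl.zero m) : ℝ) / finrank k (H m))
          atTop (𝓝 (1 / K)) ∧
        (K = 1 → ∀ m, BB R h.pl.clo h.pl.zero m = H m)) :=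
  law_gen h hr (fun hnd => facts hr hnd) H hBH hH

end

end Pool.Agent.K4H35.QB
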